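import Mathlib

set_option autoImplicit false

namespace Pool.Agent.Q290.FLD

/-- A partial function `f` from the poset `P` to the chain `Fin t` (`f x = none` when `x` is not in
the domain) is monotone if `x ≤ y` in the domain implies `f x ≤ f y`. -/
def IsMonotonePartial {P : Type} [PartialOrder P] {t : ℕ} (f : P → Option (Fin t)) : Prop :=
  ∀ x y a b, x ≤ y → f x = some a → f y = some b → a ≤ b

open scoped Classical in
/-- `w` is a fractional local `t`-realiser of `P`: a nonnegative weight on partial functions,
vanishing outside the monotone ones, such that for all `x, y` with `x ≱ y` the total weight of the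
partial functions with `f x < f y` is at least one. -/
structure IsRealiser (t : ℕ) (P : Type) [PartialOrder P] [Fintype P] [DecidableEq P]
    (w : (P → Option (Fin t)) → ℝ) : Prop where
  nonneg : ∀ f, 0 ≤ w f
  supp : ∀ f, ¬ IsMonotonePartial f → w f = 0
  sep : ∀ x y : P, ¬ y ≤ x →
    1 ≤ ∑ f : P → Option (Fin t), if (∃ a b, f x = some a ∧ f y = some b ∧ a < b) then w f else 0

/-- The local weight of `w` at `x`: the total weight of the partial functions with `x` in their
domain. -/
noncomputable def load {t : ℕ} {P : Type} [Fintype P] [DecidableEq P]
    (w : (P → Option (Fin t)) → ℝ) (x : P) : ℝ :=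
  ∑ f : P → Option (Fin t), if (f x).isSome then w f else 0

/-- The fractional local `t`-dimension of `P`: the least `L` such that some fractional local
`t`-realiser of `P` has all local weights at most `L`. -/
noncomputable def fldim (t : ℕ) (P : Type) [PartialOrder P] [Fintype P] [DecidableEq P] : ℝ :=
  sInf {L : ℝ | ∃ w : (P → Option (Fin t)) → ℝ, IsRealiser t P w ∧ ∀ x, load w x ≤ L}

end Pool.Agent.Q290.FLD
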