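import Mathlib
import Pool.Agent.Q290.FLD.Defs

set_option autoImplicit false

namespace Pool.Agent.Q290.FLD

open Finset

open scoped Classical in
/-- A family version: `t`-realisers of the chain `{0, ..., m-1}` with local weights at most `L`. -/
def Good (t m : ℕ) (L : ℝ) : Prop :=
  ∃ (ι : Type) (_ : Fintype ι) (D : ι → Finset ℕ) (g : ι → ℕ → ℕ) (w : ι → ℝ),
    (∀ i, 0 ≤ w i) ∧ (∀ i, D i ⊆ range m) ∧ (∀ i, ∀ x ∈ D i, g i x < t) ∧
    (∀ i, ∀ x ∈ D i, ∀ y ∈ D i, x ≤ y → g i x ≤ g i y) ∧
    (∀ x y, x < y → y < m →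
      1 ≤ ∑ i, if (x ∈ D i ∧ y ∈ D i ∧ g i x < g i y) then w i else 0) ∧
    (∀ x < m, (∑ i, if x ∈ D i then w i else 0) ≤ L)

theorem good_one (t : ℕ) : Good t 1 0 := by
  refine ⟨Empty, inferInstance, fun i => i.elim, fun i => i.elim, fun i => i.elim,
    fun i => i.elim, fun i => i.elim, fun i => i.elim, fun i => i.elim, ?_, ?_⟩
  · intro x y h1 h2
    omega
  · intro x _
    simp

theorem good_mul {t m n : ℕ} {L L' : ℝ} (h : Good t m L) (h' : Good t n L') :
    Good t (m * n) (L + L') := by
  classical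
  obtain ⟨ι, fι, D, g, w, h1, h2, h3, h4, h5, h6⟩ := h
  obtain ⟨ι', fι', D', g', w', h1', h2', h3', h4', h5', h6'⟩ := h'
  refine ⟨ι ⊕ (Fin m × ι'), inferInstance,
    Sum.elim (fun i => (range (m * n)).filter fun x => x / n ∈ D i)
      (fun p => (range (m * n)).filter fun x => x / n = p.1 ∧ x % n ∈ D' p.2),
    Sum.elim (fun i x => g i (x / n)) (fun p x => g' p.2 (x % n)),
    Sum.elim w (fun p => w' p.2), ?_, ?_, ?_, ?_, ?_, ?_⟩
  · rintro (i | p)
    · exact h1 i
    · exact h1' p.2
  · rintro (i | p)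
    · exact filter_subset _ _
    · exact filter_subset _ _
  · rintro (i | p) x hx
    · exact h3 i _ (mem_filter.1 hx).2
    · exact h3' p.2 _ (mem_filter.1 hx).2.2
  · rintro (i | p) x hx y hy hxy
    · exact h4 i _ (mem_filter.1 hx).2 _ (mem_filter.1 hy).2 (Nat.div_le_div_right hxy)
    · obtain ⟨hx1, hx2, hx3⟩ := mem_filter.1 hx
      obtain ⟨hy1, hy2, hy3⟩ := mem_filter.1 hy
      refine h4' p.2 _ hx3 _ hy3 ?_
      have e1 := Nat.div_add_mod x n
      have e2 := Nat.div_add_mod y n
      rw [hx2] at e1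
      rw [hy2] at e2
      omega
  · intro x y hxy hy
    have hn : 0 < n := by
      rcases Nat.eq_zero_or_pos n with h0 | h0
      · subst h0; simp at hy
      · exact h0
    rw [Fintype.sum_sum_type]
    have hdiv : x / n ≤ y / n := Nat.div_le_div_right hxy.le
    have hyd : y / n < m := Nat.div_lt_of_lt_mul (by rwa [mul_comm] at hy)
    simp only [Sum.elim_inl, Sum.elim_inr, mem_filter, mem_range, hy, hxy.trans hy, true_and]
    have nn1 : 0 ≤ ∑ i : ι, (if x / n ∈ D i ∧ y / n ∈ D i ∧ g i (x / n) < g i (y / n) then w i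
        else 0) := sum_nonneg fun i _ => by split_ifs <;> [exact h1 i; exact le_rfl]
    have nn2 : ∀ a : Fin m, 0 ≤ ∑ j : ι', (if (x / n = (a : ℕ) ∧ x % n ∈ D' j) ∧
        (y / n = (a : ℕ) ∧ y % n ∈ D' j) ∧ g' j (x % n) < g' j (y % n) then w' j
        else 0) := fun a => sum_nonneg fun i _ => by split_ifs <;> [exact h1' _; exact le_rfl]
    rw [Fintype.sum_prod_type]
    rcases Nat.lt_or_ge (x / n) (y / n) with hlt | hge
    · have key := h5 _ _ hlt hyd
      have nn3 : 0 ≤ ∑ a : Fin m, ∑ j : ι', (if (x / n = (a : ℕ) ∧ x % n ∈ D' j) ∧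
        (y / n = (a : ℕ) ∧ y % n ∈ D' j) ∧ g' j (x % n) < g' j (y % n) then w' j
        else 0) := sum_nonneg fun a _ => nn2 a
      exact le_add_of_le_of_nonneg key nn3
    · have heq : x / n = y / n := le_antisymm hdiv hge
      have hmod : x % n < y % n := by
        have e1 := Nat.div_add_mod x n
        have e2 := Nat.div_add_mod y n
        rw [heq] at e1
        omega
      have key := h5' _ _ hmod (Nat.mod_lt _ hn)
      have hsingle : ∑ j : ι', (if (x % n ∈ D' j ∧ y % n ∈ D' j ∧ g' j (x % n) < g' j (y % n))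
          then w' j else 0) = ∑ j : ι', (if (x / n = ((⟨y / n, hyd⟩ : Fin m) : ℕ) ∧ x % n ∈ D' j) ∧
          (y / n = ((⟨y / n, hyd⟩ : Fin m) : ℕ) ∧ y % n ∈ D' j) ∧
            g' j (x % n) < g' j (y % n) then w' j else 0) := by
        refine Finset.sum_congr rfl fun j _ => ?_
        simp only [heq, true_and]
      have h7 := Finset.single_le_sum (f := fun a : Fin m => ∑ j : ι', (if (x / n = (a : ℕ) ∧
        x % n ∈ D' j) ∧ (y / n = (a : ℕ) ∧ y % n ∈ D' j) ∧ g' j (x % n) < g' j (y % n) then w' j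
        else 0)) (fun a _ => nn2 a) (mem_univ (⟨y / n, hyd⟩ : Fin m))
      rw [hsingle] at key
      exact le_add_of_nonneg_of_le nn1 (key.trans h7)
  · intro x hx
    have hn : 0 < n := by
      rcases Nat.eq_zero_or_pos n with h0 | h0
      · subst h0; simp at hx
      · exact h0
    have hxd : x / n < m := Nat.div_lt_of_lt_mul (by rwa [mul_comm] at hx)
    rw [Fintype.sum_sum_type]
    simp only [Sum.elim_inl, Sum.elim_inr, mem_filter, mem_range, hx, true_and]
    refine add_le_add (h6 _ hxd) ?_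
    refine le_trans (le_of_eq ?_) (h6' _ (Nat.mod_lt x hn))
    rw [Fintype.sum_prod_type, Finset.sum_eq_single (⟨x / n, hxd⟩ : Fin m)]
    · refine Finset.sum_congr rfl fun j _ => ?_
      simp only [true_and]
    · intro a _ ha
      refine Finset.sum_eq_zero fun j _ => ?_
      rw [if_neg]
      rintro ⟨h, _⟩
      exact absurd (Fin.ext h.symm) ha
    · intro h
      exact absurd (mem_univ _) h

theorem good_pow {t m : ℕ} {L : ℝ} (h : Good t m L) (k : ℕ) : Good t (m ^ k) (k * L) := by
  induction k with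
  | zero =>
    have := good_one t
    simpa using this
  | succ k ih =>
    have := good_mul ih h
    rw [pow_succ]
    convert this using 1
    push_cast
    ring

/-! ### The weight inequality -/

/-- sums of `1/z` over `b` distinct integers `≥ a` -/
theorem sum_inv_le (a : ℕ) (ha : 1 ≤ a) (Z : Finset ℕ) (hZ : ∀ z ∈ Z, a ≤ z) :
    ∑ z ∈ Z, (1 / (z : ℝ)) ≤ ∑ j ∈ range Z.card, 1 / ((a + j : ℕ) : ℝ) := by
  induction Z using Finset.induction_on_max with
  | empty => simp
  | insert x s hs ih =>
    have hx : x ∉ s := fun h => lt_irrefl _ (hs x h)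
    have ih' := ih fun z hz => hZ z (mem_insert_of_mem hz)
    rw [sum_insert hx, card_insert_of_notMem hx, sum_range_succ]
    have hcard : a + s.card ≤ x := by
      have hsub : s ⊆ Ico a x := fun z hz =>
        mem_Ico.2 ⟨hZ z (mem_insert_of_mem hz), hs z hz⟩
      have h1 := card_le_card hsub
      rw [Nat.card_Ico] at h1
      have h2 := hZ x (mem_insert_self _ _)
      omega
    have h3 : 1 / (x : ℝ) ≤ 1 / ((a + s.card : ℕ) : ℝ) := by
      apply one_div_le_one_div_of_le
      · exact_mod_cast (by omega : 0 < a + s.card)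
      · exact_mod_cast hcard
    linarith

/-- `K n = n H_n` -/
noncomputable def K (n : ℕ) : ℝ := n * (harmonic n : ℝ)

theorem K_succ (n : ℕ) : K (n + 1) = K n + harmonic n + 1 := by
  unfold K
  rw [harmonic_succ]
  push_cast
  field_simp

theorem sum_range_inv (a b : ℕ) (ha : 1 ≤ a) :
    ∑ j ∈ range b, 1 / ((a + j : ℕ) : ℝ) = (harmonic (a + b - 1) : ℝ) - harmonic (a - 1) := by
  induction b with
  | zero => simp
  | succ b ih =>
    rw [sum_range_succ, ih]
    have h1 : a + (b + 1) - 1 = (a + b - 1) + 1 := by omega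
    rw [h1, harmonic_succ]
    have h2 : a + b - 1 + 1 = a + b := by omega
    rw [h2]
    push_cast
    ring

/-- the total of `1/(y - x)` over `x ∈ A`, `y ∈ B` with `A` below `B` -/
theorem cross_le (A B : Finset ℕ) (h : ∀ x ∈ A, ∀ y ∈ B, x < y) :
    ∑ x ∈ A, ∑ y ∈ B, 1 / ((y : ℝ) - x) ≤ K (A.card + B.card) - K A.card - K B.card := by
  induction A using Finset.induction_on_min with
  | empty => simp [K]
  | insert x s hs ih =>
    have hx : x ∉ s := fun h => lt_irrefl _ (hs x h)
    have ih' := ih fun x hx y hy => h x (mem_insert_of_mem hx) y hy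
    rw [sum_insert hx, card_insert_of_notMem hx]
    have hlt : ∀ y ∈ B, x < y := fun y hy => h x (mem_insert_self _ _) y hy
    have hinj : Set.InjOn (fun y => y - x) (B : Set ℕ) := by
      intro y hy y' hy' hyy
      have h1 := hlt y hy
      have h2 := hlt y' hy'
      have h3 : y - x = y' - x := hyy
      omega
    have h1 : ∑ y ∈ B, 1 / ((y : ℝ) - x) = ∑ z ∈ B.image (fun y => y - x), 1 / (z : ℝ) := by
      rw [sum_image hinj]
      refine sum_congr rfl fun y hy => ?_
      rw [Nat.cast_sub (hlt y hy).le]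
    have hZ : ∀ z ∈ B.image (fun y => y - x), s.card + 1 ≤ z := by
      intro z hz
      obtain ⟨y, hy, rfl⟩ := mem_image.1 hz
      have hsub : insert y s ⊆ Ioc x y := by
        intro v hv
        rcases mem_insert.1 hv with rfl | hv
        · exact mem_Ioc.2 ⟨hlt v hy, le_rfl⟩
        · exact mem_Ioc.2 ⟨hs v hv, (h v (mem_insert_of_mem hv) y hy).le⟩
      have hys : y ∉ s := fun hh => lt_irrefl _ (h y (mem_insert_of_mem hh) y hy)
      have h2 := card_le_card hsub
      rw [card_insert_of_notMem hys, Nat.card_Ioc] at h2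
      exact h2
    have h2 := sum_inv_le (s.card + 1) (by omega) _ hZ
    rw [card_image_of_injOn hinj, sum_range_inv _ _ (by omega)] at h2
    have e1 : s.card + 1 + B.card - 1 = s.card + B.card := by omega
    have e2 : s.card + 1 - 1 = s.card := by omega
    rw [e1, e2] at h2
    have e3 : s.card + 1 + B.card = s.card + B.card + 1 := by omega
    rw [h1, e3, K_succ, K_succ]
    linarith

/-- the separated sum of a monotone function is at most `K N - ∑ K n_i` -/
theorem sep_le (X : Finset ℕ) (g : ℕ → ℕ) (hg : ∀ x ∈ X, ∀ y ∈ X, x ≤ y → g x ≤ g y) (j : ℕ) :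
    ∑ x ∈ X.filter (fun x => g x < j), ∑ y ∈ X.filter (fun y => g y < j),
      (if g x < g y then 1 / ((y : ℝ) - x) else 0) ≤
    K (X.filter fun x => g x < j).card - ∑ i ∈ range j, K (X.filter fun x => g x = i).card := by
  induction j with
  | zero => simp [K]
  | succ j ih =>
    have hsplit : X.filter (fun x => g x < j + 1) =
        X.filter (fun x => g x < j) ∪ X.filter (fun x => g x = j) := by
      ext x
      simp only [mem_filter, mem_union]
      constructor
      · rintro ⟨h1, h2⟩
        rcases Nat.lt_or_ge (g x) j with h | h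
        · exact Or.inl ⟨h1, h⟩
        · exact Or.inr ⟨h1, by omega⟩
      · rintro (⟨h1, h2⟩ | ⟨h1, h2⟩)
        · exact ⟨h1, by omega⟩
        · exact ⟨h1, by omega⟩
    have hdisj : Disjoint (X.filter fun x => g x < j) (X.filter fun x => g x = j) := by
      rw [disjoint_left]
      intro x h1 h2
      have h3 := (mem_filter.1 h1).2
      have h4 := (mem_filter.1 h2).2
      omega
    set A := X.filter (fun x => g x < j) with hA
    set B := X.filter (fun x => g x = j) with hB
    rw [hsplit, sum_union hdisj, card_union_of_disjoint hdisj, sum_range_succ]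
    have hcross := cross_le A B (by
      intro x hx y hy
      obtain ⟨hx1, hx2⟩ := mem_filter.1 hx
      obtain ⟨hy1, hy2⟩ := mem_filter.1 hy
      by_contra hcon
      have := hg y hy1 x hx1 (by omega)
      omega)
    have p1 : ∑ x ∈ A, ∑ y ∈ A ∪ B, (if g x < g y then 1 / ((y : ℝ) - x) else 0) =
        ∑ x ∈ A, ∑ y ∈ A, (if g x < g y then 1 / ((y : ℝ) - x) else 0) +
        ∑ x ∈ A, ∑ y ∈ B, 1 / ((y : ℝ) - x) := by
      rw [← sum_add_distrib]
      refine sum_congr rfl fun x hx => ?_
      rw [sum_union hdisj]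
      congr 1
      refine sum_congr rfl fun y hy => ?_
      rw [if_pos]
      have h1 := (mem_filter.1 hx).2
      have h2 := (mem_filter.1 hy).2
      omega
    have p2 : ∑ x ∈ B, ∑ y ∈ A ∪ B, (if g x < g y then 1 / ((y : ℝ) - x) else 0) = 0 := by
      refine sum_eq_zero fun x hx => sum_eq_zero fun y hy => ?_
      rw [if_neg]
      have h1 := (mem_filter.1 hx).2
      rcases mem_union.1 hy with h | h
      · have h2 := (mem_filter.1 h).2
        omega
      · have h2 := (mem_filter.1 h).2
        omega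
    rw [p1, p2]
    linarith

theorem K_ge (n N t : ℕ) (ht : 1 ≤ t) (hn : n ≤ N) (hN : 1 ≤ N) :
    (n : ℝ) * (harmonic N - Real.log t) + n - (N : ℝ) / t ≤ K n := by
  have hNR : (0 : ℝ) < N := by exact_mod_cast hN
  have htR : (0 : ℝ) < t := by exact_mod_cast ht
  rcases Nat.eq_zero_or_pos n with h0 | h0
  · subst h0
    have : (0 : ℝ) ≤ (N : ℝ) / t := by positivity
    simp only [K, Nat.cast_zero, zero_mul, zero_add]
    linarith
  · have hnR : (0 : ℝ) < n := by exact_mod_cast h0
    have h1 : Real.eulerMascheroniSeq' N ≤ Real.eulerMascheroniSeq' n :=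
      Real.strictAnti_eulerMascheroniSeq'.antitone hn
    rw [Real.eulerMascheroniSeq', Real.eulerMascheroniSeq', if_neg (by omega),
      if_neg (by omega)] at h1
    -- log (N/(t n)) ≤ N/(t n) - 1
    have h2 := Real.log_le_sub_one_of_pos (show (0 : ℝ) < N / (t * n) by positivity)
    rw [Real.log_div hNR.ne' (by positivity), Real.log_mul htR.ne' hnR.ne'] at h2
    have h3 : (n : ℝ) * ((N : ℝ) / (t * n) - 1) = N / t - n := by
      field_simp
    have h4 := mul_le_mul_of_nonneg_left h2 hnR.le
    rw [h3] at h4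
    have h5 := mul_le_mul_of_nonneg_left h1 hnR.le
    unfold K
    nlinarith

theorem sep_le_log (X : Finset ℕ) (g : ℕ → ℕ) (t : ℕ) (ht : 1 ≤ t)
    (hg : ∀ x ∈ X, ∀ y ∈ X, x ≤ y → g x ≤ g y) (hgt : ∀ x ∈ X, g x < t) :
    ∑ x ∈ X, ∑ y ∈ X, (if g x < g y then 1 / ((y : ℝ) - x) else 0) ≤ X.card * Real.log t := by
  rcases X.eq_empty_or_nonempty with rfl | hne
  · simp
  have hN : 1 ≤ X.card := hne.card_pos
  have hX : X.filter (fun x => g x < t) = X := filter_true_of_mem hgt
  have h1 := sep_le X g hg t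
  rw [hX] at h1
  refine h1.trans ?_
  have h2 : ∑ i ∈ range t, ((X.filter fun x => g x = i).card : ℝ) = X.card := by
    have h3 := Finset.card_eq_sum_card_fiberwise (f := g) (s := X) (t := range t)
      (fun x hx => mem_coe.2 (mem_range.2 (hgt x hx)))
    exact_mod_cast h3.symm
  have h4 : ∑ i ∈ range t, (((X.filter fun x => g x = i).card : ℝ) *
      (harmonic X.card - Real.log t) + (X.filter fun x => g x = i).card - (X.card : ℝ) / t) ≤
      ∑ i ∈ range t, K (X.filter fun x => g x = i).card :=
    sum_le_sum fun i _ => K_ge _ _ _ ht (card_le_card (filter_subset _ _)) hN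
  rw [sum_sub_distrib, sum_add_distrib, ← sum_mul, h2, sum_const, card_range, nsmul_eq_mul] at h4
  have htR : (0 : ℝ) < t := by exact_mod_cast ht
  have h5 : (t : ℝ) * ((X.card : ℝ) / t) = X.card := by field_simp
  rw [h5] at h4
  have h6 : K X.card = X.card * (harmonic X.card : ℝ) := rfl
  rw [h6]
  linarith

/-- total weight `1/(y - x)` of all pairs of the chain -/
theorem total_sum (m : ℕ) :
    ∑ y ∈ range m, ∑ x ∈ range y, 1 / ((y : ℝ) - x) = K m - m := by
  induction m with
  | zero => simp [K]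
  | succ m ih =>
    rw [sum_range_succ, ih, K_succ]
    have h : ∑ x ∈ range m, 1 / ((m : ℝ) - x) = harmonic m := by
      rw [← sum_range_reflect, harmonic]
      push_cast
      refine sum_congr rfl fun x hx => ?_
      have hx' := mem_range.1 hx
      have : ((m - 1 - x : ℕ) : ℝ) = m - 1 - x := by
        rw [Nat.cast_sub (by omega), Nat.cast_sub (by omega)]
        simp
      rw [this, one_div]
      congr 1
      ring
    rw [h]
    push_cast
    ring

theorem total_sum' (m : ℕ) :
    ∑ x ∈ range m, ∑ y ∈ range m, (if x < y then 1 / ((y : ℝ) - x) else 0) = K m - m := by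
  rw [← total_sum, sum_comm]
  refine sum_congr rfl fun y hy => ?_
  rw [← sum_filter]
  congr 1
  ext x
  simp only [mem_filter, mem_range]
  constructor
  · exact fun h => h.2
  · exact fun h => ⟨h.trans (mem_range.1 hy), h⟩

theorem good_bound {t m : ℕ} {L : ℝ} (ht : 1 ≤ t) (h : Good t m L) :
    K m - m ≤ Real.log t * (m * L) := by
  classical
  obtain ⟨ι, fι, D, g, w, h1, h2, h3, h4, h5, h6⟩ := h
  have hlog : 0 ≤ Real.log t := Real.log_nonneg (by exact_mod_cast ht)
  have hlt : ∀ i, ∀ x ∈ D i, ∀ y ∈ D i, g i x < g i y → x < y := by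
    intro i x hx y hy hg
    by_contra hcon
    have := h4 i y hy x hx (by omega)
    omega
  have hD : ∀ i, ∑ x ∈ D i, ∑ y ∈ D i, (if g i x < g i y then 1 / ((y : ℝ) - x) else 0) =
      ∑ x ∈ range m, ∑ y ∈ range m,
        (if x ∈ D i ∧ y ∈ D i ∧ g i x < g i y then 1 / ((y : ℝ) - x) else 0) := by
    intro i
    symm
    rw [← sum_subset (h2 i)]
    · refine sum_congr rfl fun x hx => ?_
      rw [← sum_subset (h2 i)]
      · refine sum_congr rfl fun y hy => ?_
        simp only [hx, hy, true_and]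
      · intro y _ hy
        rw [if_neg]
        exact fun h => hy h.2.1
    · intro x _ hx
      refine sum_eq_zero fun y _ => ?_
      rw [if_neg]
      exact fun h => hx h.1
  have hcard : ∑ i, w i * ((D i).card : ℝ) =
      ∑ x ∈ range m, ∑ i, (if x ∈ D i then w i else 0) := by
    rw [sum_comm]
    refine sum_congr rfl fun i _ => ?_
    rw [← sum_filter, filter_mem_eq_inter, inter_eq_right.2 (h2 i), sum_const, nsmul_eq_mul,
      mul_comm]
  calc K m - m = ∑ x ∈ range m, ∑ y ∈ range m, (if x < y then 1 / ((y : ℝ) - x) else 0) :=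
        (total_sum' m).symm
    _ ≤ ∑ x ∈ range m, ∑ y ∈ range m, ∑ i,
          w i * (if x ∈ D i ∧ y ∈ D i ∧ g i x < g i y then 1 / ((y : ℝ) - x) else 0) := by
        refine sum_le_sum fun x hx => sum_le_sum fun y hy => ?_
        by_cases hxy : x < y
        · rw [if_pos hxy]
          have hpos : (0 : ℝ) ≤ 1 / ((y : ℝ) - x) := by
            apply div_nonneg zero_le_one
            have : (x : ℝ) < y := by exact_mod_cast hxy
            linarith
          have h7 : ∑ i, w i * (if x ∈ D i ∧ y ∈ D i ∧ g i x < g i y then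
              1 / ((y : ℝ) - x) else 0) = 1 / ((y : ℝ) - x) *
              ∑ i, (if (x ∈ D i ∧ y ∈ D i ∧ g i x < g i y) then w i else 0) := by
            rw [mul_sum]
            refine sum_congr rfl fun i _ => ?_
            split_ifs <;> ring
          rw [h7]
          exact le_mul_of_one_le_right hpos (h5 x y hxy (mem_range.1 hy))
        · rw [if_neg hxy]
          refine (sum_eq_zero fun i _ => ?_).ge
          rw [if_neg, mul_zero]
          exact fun h => hxy (hlt i x h.1 y h.2.1 h.2.2)
    _ = ∑ i, w i * ∑ x ∈ D i, ∑ y ∈ D i, (if g i x < g i y then 1 / ((y : ℝ) - x) else 0) := by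
        simp_rw [hD, mul_sum]
        rw [sum_comm]
        conv_rhs => rw [sum_comm]
        rw [sum_comm]
        refine sum_congr rfl fun x _ => ?_
        rw [sum_comm]
    _ ≤ ∑ i, w i * ((D i).card * Real.log t) := by
        refine sum_le_sum fun i _ => mul_le_mul_of_nonneg_left ?_ (h1 i)
        exact sep_le_log (D i) (g i) t ht (h4 i) (h3 i)
    _ = Real.log t * ∑ x ∈ range m, ∑ i, (if x ∈ D i then w i else 0) := by
        rw [← hcard, mul_sum]
        refine sum_congr rfl fun i _ => by ring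
    _ ≤ Real.log t * (m * L) := by
        apply mul_le_mul_of_nonneg_left _ hlog
        calc ∑ x ∈ range m, ∑ i, (if x ∈ D i then w i else 0)
            ≤ ∑ x ∈ range m, L := sum_le_sum fun x hx => h6 x (mem_range.1 hx)
          _ = m * L := by rw [sum_const, card_range, nsmul_eq_mul]

/-- the lower bound for families -/
theorem log_le_of_good {t m : ℕ} {L : ℝ} (ht : 1 ≤ t) (hm : 1 ≤ m) (h : Good t m L) :
    Real.log m ≤ Real.log t * L := by
  have hmR : (0 : ℝ) < m := by exact_mod_cast hm
  have key : ∀ k : ℕ, (k : ℝ) * (Real.log m - Real.log t * L) ≤ 1 := by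
    intro k
    have h1 := good_bound ht (good_pow h k)
    have h2 : Real.log (m ^ k : ℕ) ≤ harmonic (m ^ k) := by
      have h3 := log_add_one_le_harmonic (m ^ k)
      refine le_trans ?_ h3
      apply Real.log_le_log
      · exact_mod_cast pow_pos hm k
      · exact_mod_cast Nat.le_succ _
    have h4 : (0 : ℝ) < ((m ^ k : ℕ) : ℝ) := by exact_mod_cast pow_pos hm k
    have h5 : ((m ^ k : ℕ) : ℝ) * ((harmonic (m ^ k) : ℝ) - 1) ≤
        ((m ^ k : ℕ) : ℝ) * (Real.log t * (k * L)) := by
      unfold K at h1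
      calc _ = ((m ^ k : ℕ) : ℝ) * (harmonic (m ^ k) : ℝ) - ((m ^ k : ℕ) : ℝ) := by ring
        _ ≤ _ := h1
        _ = _ := by ring
    have h6 := le_of_mul_le_mul_left h5 h4
    have h7 : Real.log ((m ^ k : ℕ) : ℝ) = k * Real.log m := by
      push_cast
      rw [Real.log_pow]
    rw [h7] at h2
    linarith
  by_contra hcon
  push Not at hcon
  have hpos : 0 < Real.log m - Real.log t * L := by linarith
  obtain ⟨k, hk⟩ := exists_nat_gt (1 / (Real.log m - Real.log t * L))
  have h1 := key k
  rw [div_lt_iff₀ hpos] at hk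
  linarith

/-- a realiser gives a family -/
theorem good_of_realiser {t m : ℕ} {w : (Fin m → Option (Fin t)) → ℝ}
    (hw : IsRealiser t (Fin m) w) {L : ℝ} (hL : ∀ x, load w x ≤ L) : Good t m L := by
  classical
  set D : (Fin m → Option (Fin t)) → Finset ℕ := fun f =>
    if IsMonotonePartial f then (range m).filter fun x => ∃ h : x < m, (f ⟨x, h⟩).isSome else ∅
    with hDdef
  have memD : ∀ f x, x ∈ D f ↔ IsMonotonePartial f ∧ ∃ h : x < m, (f ⟨x, h⟩).isSome := by
    intro f x
    simp only [hDdef]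
    split_ifs with h
    · simp only [mem_filter, mem_range, h, true_and]
      constructor
      · exact fun h => h.2
      · exact fun h => ⟨h.1, h⟩
    · simp [h]
  refine ⟨Fin m → Option (Fin t), inferInstance, D,
    fun f x => if h : x < m then ((f ⟨x, h⟩).elim 0 fun a => (a : ℕ)) else 0,
    w, hw.nonneg, ?_, ?_, ?_, ?_, ?_⟩
  · intro f x hx
    obtain ⟨_, h, _⟩ := (memD f x).1 hx
    exact mem_range.2 h
  · intro f x hx
    obtain ⟨hf, hx2, hx3⟩ := (memD f x).1 hx
    obtain ⟨a, ha⟩ := Option.isSome_iff_exists.1 hx3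
    simp only [dif_pos hx2, ha, Option.elim]
    exact a.2
  · intro f x hx y hy hxy
    obtain ⟨hf, hx2, hx3⟩ := (memD f x).1 hx
    obtain ⟨_, hy2, hy3⟩ := (memD f y).1 hy
    obtain ⟨a, ha⟩ := Option.isSome_iff_exists.1 hx3
    obtain ⟨b, hb⟩ := Option.isSome_iff_exists.1 hy3
    simp only [dif_pos hx2, dif_pos hy2, ha, hb, Option.elim]
    exact hf _ _ a b (by exact hxy) ha hb
  · intro x y hxy hy
    have hx : x < m := hxy.trans hy
    have h1 := hw.sep ⟨x, hx⟩ ⟨y, hy⟩ (by simpa using hxy)
    refine h1.trans (Finset.sum_le_sum fun f _ => ?_)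
    by_cases hf : IsMonotonePartial f
    · by_cases hc : ∃ a b, f ⟨x, hx⟩ = some a ∧ f ⟨y, hy⟩ = some b ∧ a < b
      · rw [if_pos hc, if_pos]
        obtain ⟨a, b, ha, hb, hab⟩ := hc
        refine ⟨(memD f x).2 ⟨hf, hx, by rw [ha]; rfl⟩, (memD f y).2 ⟨hf, hy, by rw [hb]; rfl⟩, ?_⟩
        simp only [dif_pos hx, dif_pos hy, ha, hb, Option.elim]
        exact hab
      · rw [if_neg hc]
        split_ifs
        · exact hw.nonneg f
        · exact le_rfl
    · rw [hw.supp f hf]
      simp
  · intro x hx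
    refine le_trans (Finset.sum_le_sum fun f _ => ?_) (hL ⟨x, hx⟩)
    by_cases hc : x ∈ D f
    · obtain ⟨_, h, h'⟩ := (memD f x).1 hc
      rw [if_pos hc, if_pos h']
    · rw [if_neg hc]
      split_ifs
      · exact hw.nonneg f
      · exact le_rfl

/-- the lower bound for realisers -/
theorem logb_le_of_realiser {t m : ℕ} (ht : 2 ≤ t) (hm : 1 ≤ m)
    {w : (Fin m → Option (Fin t)) → ℝ} (hw : IsRealiser t (Fin m) w) {L : ℝ}
    (hL : ∀ x, load w x ≤ L) : Real.logb t m ≤ L := by
  have h1 := log_le_of_good (by omega) hm (good_of_realiser hw hL)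
  have h2 : 0 < Real.log t := Real.log_pos (by exact_mod_cast ht)
  rw [Real.logb, div_le_iff₀ h2, mul_comm]
  exact h1

end Pool.Agent.Q290.FLD
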