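import Mathlib
import Pool.Agent.Q290.FLD.Core

set_option autoImplicit false

namespace Pool.Agent.Q290.FLD

open Finset

/-- a family gives a realiser -/
theorem realiser_of_good {t m : ℕ} {L : ℝ} (h : Good t m L) :
    ∃ w : (Fin m → Option (Fin t)) → ℝ, IsRealiser t (Fin m) w ∧ ∀ x, load w x ≤ L := by
  classical
  obtain ⟨ι, fι, D, g, w, h1, h2, h3, h4, h5, h6⟩ := h
  set F : ι → Fin m → Option (Fin t) := fun i x =>
    if h : x.1 ∈ D i then some ⟨g i x.1, h3 i x.1 h⟩ else none with hF
  have hFsome : ∀ i x a, F i x = some a ↔ x.1 ∈ D i ∧ g i x.1 = (a : ℕ) := by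
    intro i x a
    simp only [hF]
    split_ifs with h
    · simp only [Option.some.injEq, Fin.ext_iff, h, true_and]
    · simp [h]
  have hsum : ∀ c : (Fin m → Option (Fin t)) → Prop,
      (∑ f : Fin m → Option (Fin t), if c f then (∑ i, if F i = f then w i else 0) else 0) =
        ∑ i, if c (F i) then w i else 0 := by
    intro c
    have e1 : ∀ f : Fin m → Option (Fin t),
        (if c f then (∑ i, if F i = f then w i else 0) else 0) =
          ∑ i, if F i = f then (if c f then w i else 0) else 0 := by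
      intro f
      split_ifs
      · rfl
      · simp
    rw [sum_congr rfl fun f _ => e1 f, sum_comm]
    refine sum_congr rfl fun i _ => ?_
    rw [sum_ite_eq]
    simp
  refine ⟨fun f => ∑ i, if F i = f then w i else 0, ⟨?_, ?_, ?_⟩, ?_⟩
  · intro f
    exact sum_nonneg fun i _ => by split_ifs <;> [exact h1 i; exact le_rfl]
  · intro f hf
    refine sum_eq_zero fun i _ => ?_
    rw [if_neg]
    rintro rfl
    apply hf
    intro x y a b hxy hx hy
    obtain ⟨hx1, hx2⟩ := (hFsome i x a).1 hx
    obtain ⟨hy1, hy2⟩ := (hFsome i y b).1 hy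
    have := h4 i x.1 hx1 y.1 hy1 hxy
    rw [hx2, hy2] at this
    exact this
  · intro x y hxy
    have hlt : x.1 < y.1 := by simpa using hxy
    have e := hsum fun f => ∃ a b, f x = some a ∧ f y = some b ∧ a < b
    have h7 := h5 x.1 y.1 hlt y.2
    have e2 : (∑ i, if (∃ a b, F i x = some a ∧ F i y = some b ∧ a < b) then w i else 0) =
        ∑ i, if (x.1 ∈ D i ∧ y.1 ∈ D i ∧ g i x.1 < g i y.1) then w i else 0 := by
      refine sum_congr rfl fun i _ => ?_
      congr 1
      apply propext
      constructor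
      · rintro ⟨a, b, ha, hb, hab⟩
        obtain ⟨hx1, hx2⟩ := (hFsome i x a).1 ha
        obtain ⟨hy1, hy2⟩ := (hFsome i y b).1 hb
        exact ⟨hx1, hy1, by rw [hx2, hy2]; exact hab⟩
      · rintro ⟨ha, hb, hab⟩
        exact ⟨⟨g i x.1, h3 i _ ha⟩, ⟨g i y.1, h3 i _ hb⟩, (hFsome i x _).2 ⟨ha, rfl⟩,
          (hFsome i y _).2 ⟨hb, rfl⟩, hab⟩
    refine h7.trans (le_of_eq ?_)
    rw [← e2]
    convert e.symm using 1 <;> exact sum_congr rfl fun _ _ => by congr
  · intro x
    have e := hsum fun f => (f x).isSome = true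
    have h7 := h6 x.1 x.2
    have e2 : (∑ i, if ((F i x).isSome = true) then w i else 0) =
        ∑ i, if x.1 ∈ D i then w i else 0 := by
      refine sum_congr rfl fun i _ => ?_
      congr 1
      apply propext
      rw [Option.isSome_iff_exists]
      constructor
      · rintro ⟨a, ha⟩
        exact ((hFsome i x a).1 ha).1
      · intro h
        exact ⟨⟨g i x.1, h3 i _ h⟩, (hFsome i x _).2 ⟨h, rfl⟩⟩
    refine le_trans (le_of_eq ?_) h7
    rw [← e2]
    unfold load
    convert e using 1 <;> exact sum_congr rfl fun _ _ => by congr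

/-- the identity realiser of the chain `t` -/
theorem good_self (t : ℕ) : Good t t 1 := by
  classical
  refine ⟨Unit, inferInstance, fun _ => range t, fun _ x => x, fun _ => 1, fun _ => zero_le_one,
    fun _ => Subset.rfl, fun _ x hx => mem_range.1 hx, fun _ _ _ _ _ h => h, ?_, ?_⟩
  · intro x y hxy hy
    simp [hxy, hy, hxy.trans hy]
  · intro x hx
    simp [hx]

theorem good_mono {t m n : ℕ} {L : ℝ} (hmn : m ≤ n) (h : Good t n L) : Good t m L := by
  classical
  obtain ⟨ι, fι, D, g, w, h1, h2, h3, h4, h5, h6⟩ := h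
  refine ⟨ι, fι, fun i => (D i).filter fun x => x < m, g, w, h1, ?_, ?_, ?_, ?_, ?_⟩
  · intro i x hx
    exact mem_range.2 (mem_filter.1 hx).2
  · intro i x hx
    exact h3 i x (mem_filter.1 hx).1
  · intro i x hx y hy
    exact h4 i x (mem_filter.1 hx).1 y (mem_filter.1 hy).1
  · intro x y hxy hy
    refine (h5 x y hxy (by omega)).trans (le_of_eq ?_)
    refine sum_congr rfl fun i _ => ?_
    simp only [mem_filter, hy, hxy.trans hy, and_true]
  · intro x hx
    refine le_trans (le_of_eq ?_) (h6 x (by omega))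
    refine sum_congr rfl fun i _ => ?_
    simp only [mem_filter, hx, and_true]

theorem set_nonempty {t : ℕ} (ht : 2 ≤ t) (m : ℕ) :
    {L : ℝ | ∃ w : (Fin m → Option (Fin t)) → ℝ, IsRealiser t (Fin m) w ∧
      ∀ x, load w x ≤ L}.Nonempty := by
  have h1 : m ≤ t ^ m := (Nat.lt_pow_self (by omega)).le
  exact ⟨_, realiser_of_good (good_mono h1 (good_pow (good_self t) m))⟩

/-- the general lower bound -/
theorem logb_le_fldim {t m : ℕ} (ht : 2 ≤ t) (hm : 1 ≤ m) : Real.logb t m ≤ fldim t (Fin m) := by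
  refine le_csInf (set_nonempty ht m) ?_
  rintro L ⟨w, hw, hL⟩
  exact logb_le_of_realiser ht hm hw hL

theorem fldim_le_of_good {t m : ℕ} {L : ℝ} (ht : 2 ≤ t) (hm : 1 ≤ m) (h : Good t m L) :
    fldim t (Fin m) ≤ L := by
  refine csInf_le ⟨Real.logb t m, ?_⟩ (realiser_of_good h)
  rintro L' ⟨w, hw, hL'⟩
  exact logb_le_of_realiser ht hm hw hL'

/-- the exact value at the powers of `t` -/
theorem fldim_pow {t : ℕ} (ht : 2 ≤ t) (k : ℕ) : fldim t (Fin (t ^ k)) = k := by
  have hpos : 1 ≤ t ^ k := Nat.one_le_pow _ _ (by omega)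
  apply le_antisymm
  · have := fldim_le_of_good ht hpos (good_pow (good_self t) k)
    simpa using this
  · have h1 := logb_le_fldim (t := t) (m := t ^ k) ht hpos
    have h2 : Real.logb (t : ℝ) ((t ^ k : ℕ) : ℝ) = k := by
      push_cast
      rw [Real.logb_pow, Real.logb_self_eq_one (by exact_mod_cast ht), mul_one]
    rw [h2] at h1
    exact h1

end Pool.Agent.Q290.FLD
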